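import Pool.Agent.MP_39ed1d_co.H76.Defs

/-! The window estimate, by the midpoint rule for `om s * exp (i σ s) / √s`. -/

namespace Pool.Agent.MP_39ed1d_co.H73

open Pool.Agent.MP_39ed1d_co.H76 Complex Filter Topology MeasureTheory

lemma step {g g' : ℝ → ℂ} {B B' : ℝ → ℝ} {τ : ℝ} (h0 : g 0 = 0) (hB0 : B 0 = 0)
    (hg : ∀ t ∈ Set.Icc 0 τ, HasDerivAt g (g' t) t) (hB : ∀ t, HasDerivAt B (B' t) t)
    (hle : ∀ t ∈ Set.Icc 0 τ, ‖g' t‖ ≤ B' t) : ∀ t ∈ Set.Icc 0 τ, ‖g t‖ ≤ B t :=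
  fun _ ht => image_norm_le_of_norm_deriv_right_le_deriv_boundary
    (fun t ht => (hg t ht).continuousAt.continuousWithinAt)
    (fun t ht => (hg t (Set.Ico_subset_Icc_self ht)).hasDerivWithinAt) (by simp [h0, hB0]) hB
    (fun t ht => hle t (Set.Ico_subset_Icc_self ht)) ht

lemma midpoint {G f f1 f2 : ℝ → ℂ} {c τ M : ℝ} (hτ : 0 ≤ τ)
    (hG : ∀ s, c - τ ≤ s → HasDerivAt G (f s) s) (hf : ∀ s, c - τ ≤ s → HasDerivAt f (f1 s) s)
    (hf1 : ∀ s, c - τ ≤ s → HasDerivAt f1 (f2 s) s) (hM : ∀ s, c - τ ≤ s → ‖f2 s‖ ≤ M) :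
    ‖G (c + τ) - G (c - τ) - 2 * τ * f c‖ ≤ M * τ ^ 3 / 3 := by
  have hp : ∀ {F F' : ℝ → ℂ}, (∀ s, c - τ ≤ s → HasDerivAt F (F' s) s) → ∀ t ∈ Set.Icc 0 τ,
      HasDerivAt (fun t => F (c + t)) (F' (c + t)) t := fun h t ht =>
    (h _ (by linarith [ht.1])).comp_const_add c t
  have hm : ∀ {F F' : ℝ → ℂ}, (∀ s, c - τ ≤ s → HasDerivAt F (F' s) s) → ∀ t ∈ Set.Icc 0 τ,
      HasDerivAt (fun t => F (c - t)) (-F' (c - t)) t := fun h t ht =>
    (h _ (by linarith [ht.2])).comp_const_sub c t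
  have h3 := step (g := fun t => f1 (c + t) - f1 (c - t)) (g' := fun t => f2 (c + t) - -f2 (c - t))
    (B := fun t => 2 * M * t) (B' := fun _ => 2 * M) (by simp) (by simp)
    (fun t ht => (hp hf1 t ht).sub (hm hf1 t ht))
    (fun t => by simpa using (hasDerivAt_id t).const_mul (2 * M))
    fun t ht => by
      have h1 := hM (c + t) (by linarith [ht.1])
      have h2 := hM (c - t) (by linarith [ht.2])
      refine (norm_sub_le _ _).trans ?_
      rw [norm_neg]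
      linarith
  have h2 := step (g := fun t => f (c + t) + f (c - t) - 2 * f c)
    (g' := fun t => f1 (c + t) + -f1 (c - t))
    (B := fun t => M * t ^ 2) (B' := fun t => 2 * M * t) (by simp; ring) (by simp)
    (fun t ht => ((hp hf t ht).add (hm hf t ht)).sub_const _)
    (fun t => ((hasDerivAt_pow 2 t).const_mul M).congr_deriv (by simp; ring))
    fun t ht => by simpa [sub_eq_add_neg] using h3 t ht
  have h1 := step (g := fun t => G (c + t) - G (c - t) - 2 * t * f c)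
    (g' := fun t => f (c + t) - -f (c - t) - 2 * 1 * f c)
    (B := fun t => M * t ^ 3 / 3) (B' := fun t => M * t ^ 2) (by simp) (by simp)
    (fun t ht => ((hp hG t ht).sub (hm hG t ht)).sub
      (((hasDerivAt_id t).ofReal_comp.const_mul 2).mul_const (f c)))
    (fun t => (((hasDerivAt_pow 3 t).const_mul M).div_const 3).congr_deriv (by simp; ring))
    fun t ht => by simpa using h2 t ht
  exact h1 τ ⟨hτ, le_rfl⟩

/-- the exponent -/
noncomputable def ps (σ s : ℝ) : ℂ := (21 / 20 + σ * I) * s - (s : ℂ) ^ 3 / 24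

/-- the integrand -/
noncomputable def ff (σ s : ℝ) : ℂ := exp (ps σ s - (Real.log s : ℂ) / 2)

/-- its logarithmic derivative -/
noncomputable def PP (σ s : ℝ) : ℂ := ((21 / 20 - s ^ 2 / 8 - 1 / (2 * s) : ℝ) : ℂ) + σ * I

/-- its primitive -/
noncomputable def GI (σ s : ℝ) : ℂ := ∫ u in (0 : ℝ)..√s, 2 * exp (ps σ (u ^ 2))

lemma exp_ps (σ s : ℝ) : exp (ps σ s) = om s * exp (σ * s * I) := by
  rw [om, ofReal_exp, ← Complex.exp_add, ps]
  congr 1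
  push_cast
  ring

lemma norm_exp_ps (σ s : ℝ) : ‖exp (ps σ s)‖ = om s := by
  rw [exp_ps, norm_mul, ← ofReal_mul, norm_exp_ofReal_mul_I, norm_real, mul_one,
    Real.norm_of_nonneg (om_pos s).le]

lemma ff_eq (σ : ℝ) {s : ℝ} (hs : 0 < s) : ff σ s = exp (ps σ s) / (√s : ℝ) := by
  have : exp ((Real.log s : ℂ) / 2) = (√s : ℝ) := by
    rw [← ofReal_ofNat, ← ofReal_div, ← ofReal_exp, Real.exp_half, Real.exp_log hs]
  rw [ff, Complex.exp_sub, this]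

lemma cont_int (σ : ℝ) : Continuous fun u : ℝ => 2 * exp (ps σ (u ^ 2)) := by
  unfold ps
  fun_prop

lemma hasDerivAt_GI (σ : ℝ) {s : ℝ} (hs : 0 < s) : HasDerivAt (GI σ) (ff σ s) s := by
  have h1 := ((cont_int σ).integral_hasStrictDerivAt 0 √s).hasDerivAt
  have h2 := h1.scomp s (Real.hasDerivAt_sqrt hs.ne')
  refine HasDerivAt.congr_deriv h2 ?_
  have h3 : ((√s : ℝ) : ℂ) ≠ 0 := ofReal_ne_zero.2 (Real.sqrt_pos.2 hs).ne'
  rw [ff_eq σ hs, Real.sq_sqrt hs.le, real_smul]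
  push_cast
  field_simp

lemma hasDerivAt_ff (σ : ℝ) {s : ℝ} (hs : 0 < s) : HasDerivAt (ff σ) (ff σ s * PP σ s) s := by
  have h0 := (hasDerivAt_id s).ofReal_comp
  have h1 := (((h0.const_mul (21 / 20 + σ * I)).sub ((h0.pow 3).div_const 24)).sub
    ((Real.hasDerivAt_log hs.ne').ofReal_comp.div_const 2)).cexp
  refine HasDerivAt.congr_deriv h1 ?_
  have h3 : (s : ℂ) ≠ 0 := ofReal_ne_zero.2 hs.ne'
  refine congrArg (fun z => ff σ s * z) ?_
  simp only [PP, id]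
  push_cast
  field_simp
  ring

lemma hasDerivAt_PP (σ : ℝ) {s : ℝ} (hs : 0 < s) :
    HasDerivAt (PP σ) ((-(s / 4) + 1 / (2 * s ^ 2) : ℝ) : ℂ) s := by
  have h1 : HasDerivAt (fun s : ℝ => 21 / 20 - s ^ 2 / 8 - 1 / (2 * s))
      (-(s / 4) + 1 / (2 * s ^ 2)) s := by
    have h2 := (((hasDerivAt_pow 2 s).div_const 8).const_sub (21 / 20)).sub
      ((hasDerivAt_const s (1 : ℝ)).div ((hasDerivAt_id s).const_mul 2) (by simpa using hs.ne'))
    refine HasDerivAt.congr_deriv h2 ?_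
    simp only [id]
    field_simp
    ring
  exact h1.ofReal_comp.add_const _

/-- majorant of the second derivative, as a function of `√s` -/
noncomputable def MM (r : ℝ) : ℝ := 3 / 4 / r ^ 5 + 2400 / (r * (1 + r / 2) ^ 2)

/-- minus a primitive of the majorant -/
noncomputable def EE (r : ℝ) : ℝ := 1 / 2 / r ^ 3 + 9600 / (1 + r / 2)

lemma MM_anti {x y : ℝ} (hx : 0 < x) (h : x ≤ y) : MM y ≤ MM x := by
  have hy : 0 < y := hx.trans_le h
  unfold MM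
  gcongr

lemma MM_le {x y : ℝ} (hx : 0 < x) (h : x ≤ y) : (y ^ 2 - x ^ 2) * MM y ≤ EE x - EE y := by
  have hy : 0 < y := hx.trans_le h
  have hd : 0 ≤ y - x := sub_nonneg.2 h
  have h1 : (y ^ 2 - x ^ 2) * (3 / 4 / y ^ 5) ≤ 1 / 2 / x ^ 3 - 1 / 2 / y ^ 3 := by
    have e1 : (y ^ 2 - x ^ 2) * (3 / 4 / y ^ 5) =
        (y - x) / (x ^ 3 * y ^ 5) * (3 / 4 * (y + x) * x ^ 3) := by field_simp; ring
    have e2 : 1 / 2 / x ^ 3 - 1 / 2 / y ^ 3 =
        (y - x) / (x ^ 3 * y ^ 5) * (1 / 2 * (y ^ 2 * (y ^ 2 + y * x + x ^ 2))) := by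
      field_simp; ring
    rw [e1, e2]
    refine mul_le_mul_of_nonneg_left ?_ (by positivity)
    calc 3 / 4 * (y + x) * x ^ 3 ≤ 3 / 4 * (y + y) * x ^ 3 := by gcongr
      _ = 1 / 2 * ((y * x) * (x ^ 2 + x * x + x ^ 2)) := by ring
      _ ≤ 1 / 2 * ((y * y) * (y ^ 2 + y * x + x ^ 2)) := by gcongr
      _ = _ := by ring
  have h2 : (y ^ 2 - x ^ 2) * (2400 / (y * (1 + y / 2) ^ 2)) ≤
      9600 / (1 + x / 2) - 9600 / (1 + y / 2) := by
    have e1 : (y ^ 2 - x ^ 2) * (2400 / (y * (1 + y / 2) ^ 2)) =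
        2400 * (y - x) / (1 + y / 2) * ((y + x) / y * (1 / (1 + y / 2))) := by field_simp; ring
    have e2 : 9600 / (1 + x / 2) - 9600 / (1 + y / 2) =
        2400 * (y - x) / (1 + y / 2) * ((y + y) / y * (1 / (1 + x / 2))) := by field_simp; ring
    rw [e1, e2]
    gcongr
  unfold MM EE
  linarith

lemma om_mul_le {s : ℝ} (hs : 0 ≤ s) : om s * (3 / 4 - 21 / 20 * s) ≤ 3 / 4 := by
  have h1 : om s ≤ Real.exp (21 / 20 * s) :=
    Real.exp_le_exp.2 (by linarith [pow_nonneg hs 3])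
  have h2 := mul_le_mul_of_nonneg_left (Real.add_one_le_exp (-(21 / 20 * s)))
    (Real.exp_pos (21 / 20 * s)).le
  rw [← Real.exp_add, add_neg_cancel, Real.exp_zero] at h2
  have h3 := om_pos s
  rcases le_total (3 / 4 - 21 / 20 * s) 0 with h | h
  · nlinarith
  · nlinarith [mul_le_mul_of_nonneg_right h1 h, Real.exp_pos (21 / 20 * s)]

lemma om_mul_le' {r : ℝ} (hr : 0 ≤ r) : om (r ^ 2) *
    ((21 / 20 - (r ^ 2) ^ 2 / 8) ^ 2 + 3 / 8 * r ^ 2 + 81) * (1 + r / 2) ^ 2 ≤ 2400 := by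
  have hB : (1 + r / 2) ^ 2 ≤ 7 / 2 * Real.exp (15 / 98 * r ^ 2 - 13 / 28) := by
    nlinarith [Real.add_one_le_exp (15 / 98 * r ^ 2 - 13 / 28), sq_nonneg (r - 7 / 4)]
  have hs : 0 ≤ r ^ 2 := sq_nonneg r
  generalize r ^ 2 = s at *
  have hA : (21 / 20 - s ^ 2 / 8) ^ 2 + 3 / 8 * s + 81 ≤ 823 / 10 * Real.exp (s ^ 3 / 600) := by
    have h1 := Real.quadratic_le_exp_of_nonneg (x := s ^ 3 / 600) (by positivity)
    have h2 := mul_nonneg (pow_nonneg hs 3)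
      (mul_nonneg (sq_nonneg (s - 7)) (by linarith : 0 ≤ s + 14))
    nlinarith [sq_nonneg (s - 5 / 7), pow_nonneg hs 3, pow_nonneg hs 4]
  have hC : om s * Real.exp (s ^ 3 / 600) * Real.exp (15 / 98 * s - 13 / 28) ≤ 83 / 10 := by
    rw [om, ← Real.exp_add, ← Real.exp_add]
    have h1 : 21 / 20 * s - s ^ 3 / 24 + s ^ 3 / 600 + (15 / 98 * s - 13 / 28) ≤ 1 + 1 + 1 / 10 := by
      nlinarith [mul_nonneg (sq_nonneg (s - 317 / 100)) (by linarith : 0 ≤ s + 317 / 50)]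
    refine (Real.exp_le_exp.2 h1).trans ?_
    have h2 := Real.add_one_le_exp (-(1 / 10))
    rw [Real.exp_neg, le_inv_comm₀ (by norm_num) (Real.exp_pos _)] at h2
    have h3 := Real.exp_one_lt_d9
    rw [Real.exp_add, Real.exp_add]
    calc _ ≤ 2.7182818286 * 2.7182818286 * (-(1 / 10) + 1 : ℝ)⁻¹ := by gcongr
      _ ≤ _ := by norm_num
  have h4 := (om_pos s).le
  calc _ ≤ om s * (823 / 10 * Real.exp (s ^ 3 / 600)) *
        (7 / 2 * Real.exp (15 / 98 * s - 13 / 28)) := by gcongr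
    _ = 823 / 10 * (7 / 2) *
        (om s * Real.exp (s ^ 3 / 600) * Real.exp (15 / 98 * s - 13 / 28)) := by ring
    _ ≤ 2400 := by linarith

lemma norm_f2_le {σ s : ℝ} (h0 : 0 ≤ σ) (h9 : σ ≤ 9) (hs : 0 < s) :
    ‖ff σ s * PP σ s * PP σ s + ff σ s * ((-(s / 4) + 1 / (2 * s ^ 2) : ℝ) : ℂ)‖ ≤ MM √s := by
  obtain ⟨r, hr, rfl⟩ : ∃ r, 0 < r ∧ s = r ^ 2 := ⟨√s, Real.sqrt_pos.2 hs, (Real.sq_sqrt hs.le).symm⟩
  have hf : ‖ff σ (r ^ 2)‖ = om (r ^ 2) / r := by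
    rw [ff_eq σ hs, norm_div, norm_exp_ps, Real.sqrt_sq hr.le, norm_real, Real.norm_of_nonneg hr.le]
  have hP : ‖PP σ (r ^ 2)‖ * ‖PP σ (r ^ 2)‖ =
      (21 / 20 - (r ^ 2) ^ 2 / 8 - 1 / (2 * r ^ 2)) ^ 2 + σ ^ 2 := by
    rw [← sq, Complex.sq_norm, PP, normSq_add_mul_I]
  have hQ : ‖((-(r ^ 2 / 4) + 1 / (2 * (r ^ 2) ^ 2) : ℝ) : ℂ)‖ ≤
      r ^ 2 / 4 + 1 / (2 * (r ^ 2) ^ 2) := by
    rw [norm_real]
    refine (norm_add_le _ _).trans_eq ?_
    rw [norm_neg, Real.norm_of_nonneg (by positivity), Real.norm_of_nonneg (by positivity)]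
  have h1 := om_mul_le hs.le
  have h2 := om_mul_le' hr.le
  have h3 := (om_pos (r ^ 2)).le
  have h4 : σ ^ 2 ≤ 81 := by nlinarith
  rw [Real.sqrt_sq hr.le]
  refine (norm_add_le _ _).trans ?_
  rw [norm_mul, norm_mul, norm_mul, mul_assoc, hP, hf]
  calc _ ≤ om (r ^ 2) / r * ((21 / 20 - (r ^ 2) ^ 2 / 8 - 1 / (2 * r ^ 2)) ^ 2 + 81) +
        om (r ^ 2) / r * (r ^ 2 / 4 + 1 / (2 * (r ^ 2) ^ 2)) := by gcongr
    _ = om (r ^ 2) * (3 / 4 - 21 / 20 * r ^ 2) / r ^ 5 + om (r ^ 2) *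
        ((21 / 20 - (r ^ 2) ^ 2 / 8) ^ 2 + 3 / 8 * r ^ 2 + 81) * (1 + r / 2) ^ 2 /
          (r * (1 + r / 2) ^ 2) := by field_simp; ring
    _ ≤ MM r := by unfold MM; gcongr

lemma cell {σ h a : ℝ} (h0 : 0 ≤ σ) (h9 : σ ≤ 9) (hh : 0 < h) (ha : 0 < a) :
    ‖h * ff σ (a + h / 2) - (GI σ (a + h) - GI σ a)‖ ≤ h ^ 2 / 24 * (h * MM √a) := by
  have e : a + h / 2 - h / 2 = a := by ring
  have e' : a + h / 2 + h / 2 = a + h := by ring
  have h1 := midpoint (c := a + h / 2) (τ := h / 2) (M := MM √a) (by positivity)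
    (fun s hs => hasDerivAt_GI σ (s := s) (by linarith))
    (fun s hs => hasDerivAt_ff σ (s := s) (by linarith))
    (fun s hs => (hasDerivAt_ff σ (s := s) (by linarith)).mul (hasDerivAt_PP σ (by linarith)))
    fun s hs => (norm_f2_le h0 h9 (by linarith)).trans
      (MM_anti (Real.sqrt_pos.2 ha) (Real.sqrt_le_sqrt (by linarith)))
  rw [e, e', norm_sub_rev, show (2 : ℂ) * (h / 2 : ℝ) = h by push_cast; ring] at h1
  exact h1.trans_eq (by ring)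

lemma cells {σ h : ℝ} (h0 : 0 ≤ σ) (h9 : σ ≤ 9) (hh : 0 < h) (n : ℕ) :
    ‖∑ j ∈ Finset.range (n + 1), h * ff σ ((j + 1) * h) -
      (GI σ ((n + 1) * h + h / 2) - GI σ (h / 2))‖ ≤
      h ^ 2 / 24 * (h * MM √(h / 2) + EE √(h / 2) - EE √(n * h + h / 2)) := by
  induction n with
  | zero =>
    have h1 := cell h0 h9 hh (a := h / 2) (by positivity)
    rw [add_halves, add_comm] at h1
    simpa using h1
  | succ n ih =>
    have ha : 0 < n * h + h / 2 := by positivity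
    have h1 := cell h0 h9 hh (a := (n + 1) * h + h / 2) (by positivity)
    have h2 := MM_le (Real.sqrt_pos.2 ha)
      (Real.sqrt_le_sqrt (by linarith : n * h + h / 2 ≤ (n + 1) * h + h / 2))
    rw [Real.sq_sqrt ha.le, Real.sq_sqrt (by positivity),
      show (n + 1) * h + h / 2 - (n * h + h / 2) = h by ring] at h2
    rw [show (n + 1) * h + h / 2 + h / 2 = (n + 1 + 1) * h by ring,
      show (n + 1) * h + h / 2 + h = (n + 1 + 1) * h + h / 2 by ring] at h1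
    rw [Finset.sum_range_succ]
    push_cast
    have h3 := mul_le_mul_of_nonneg_left h2 (by positivity : 0 ≤ h ^ 2 / 24)
    refine le_trans (le_of_eq ?_) ((norm_add_le _ _).trans ((add_le_add ih h1).trans (by linarith)))
    congr 1
    ring

lemma first {σ r : ℝ} (h0 : 0 ≤ σ) (h9 : σ ≤ 9) (hr : 0 ≤ r) (hr1 : r ^ 2 ≤ 1 / 200) :
    ‖2 * r - GI σ (r ^ 2)‖ ≤ 11 / 100 * r := by
  have e : 2 * r - GI σ (r ^ 2) = ∫ u in (0 : ℝ)..r, (2 - 2 * exp (ps σ (u ^ 2))) := by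
    rw [intervalIntegral.integral_sub (by simp) ((cont_int σ).intervalIntegrable _ _), GI,
      Real.sqrt_sq hr]
    simp [mul_comm]
  rw [e]
  refine (intervalIntegral.norm_integral_le_of_norm_le_const (C := 11 / 100) ?_).trans_eq
    (by rw [sub_zero, abs_of_nonneg hr])
  intro u hu
  rw [Set.uIoc_of_le hr] at hu
  have hs : u ^ 2 ≤ 1 / 200 := (pow_le_pow_left₀ hu.1.le hu.2 2).trans hr1
  have hs0 := sq_nonneg u
  generalize u ^ 2 = s at *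
  have h1 : ‖ps σ s‖ ≤ 51 / 1000 := by
    have h2 : ‖(21 / 20 + σ * I : ℂ)‖ ≤ 201 / 20 := by
      refine (norm_add_le _ _).trans ?_
      rw [norm_mul, norm_I, norm_real, Real.norm_of_nonneg h0]
      norm_num
      linarith
    refine (norm_sub_le _ _).trans ?_
    rw [norm_mul, norm_div, norm_pow, norm_real, Real.norm_of_nonneg hs0]
    have h3 : s ^ 3 ≤ (1 / 200) ^ 3 := pow_le_pow_left₀ hs0 hs 3
    have h4 := mul_le_mul h2 hs hs0 (by norm_num)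
    norm_num at h3 ⊢
    linarith
  have h5 := Complex.norm_exp_sub_one_sub_id_le (x := ps σ s) (by linarith)
  have h6 : (2 : ℂ) - 2 * exp (ps σ s) = -2 * ((exp (ps σ s) - 1 - ps σ s) + ps σ s) := by ring
  have h7 := norm_add_le (exp (ps σ s) - 1 - ps σ s) (ps σ s)
  rw [h6, norm_mul, norm_neg, Complex.norm_two]
  nlinarith [norm_nonneg (ps σ s)]

lemma total {r : ℝ} (hr : 0 < r) (hr1 : r ^ 2 ≤ 1 / 200) :
    11 / 100 * r + (2 * r ^ 2) ^ 2 / 24 * (2 * r ^ 2 * MM r + EE r) ≤ 3 / 40 := by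
  have h1 : MM r ≤ 3 / 4 / r ^ 5 + 2400 / (r * 1) := by
    unfold MM
    gcongr
    nlinarith
  have h2 : EE r ≤ 1 / 2 / r ^ 3 + 9600 / 1 := by
    unfold EE
    gcongr
    linarith
  have h3 : r ≤ 71 / 1000 := by nlinarith
  have h4 : r ^ 4 ≤ 1 / 40000 := by nlinarith [sq_nonneg r]
  have h5 : r ^ 5 ≤ 1 / 40000 * (71 / 1000) := by
    rw [pow_succ]
    gcongr
  calc _ ≤ 11 / 100 * r + (2 * r ^ 2) ^ 2 / 24 * (2 * r ^ 2 * (3 / 4 / r ^ 5 + 2400 / (r * 1)) +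
        (1 / 2 / r ^ 3 + 9600 / 1)) := by gcongr
    _ = 11 / 100 * r + r / 3 + 800 * r ^ 5 + 1600 * r ^ 4 := by field_simp; ring
    _ ≤ 3 / 40 := by linarith

lemma term_eq (σ : ℝ) {v : ℝ} (hv : 0 < v) (j : ℕ) :
    (v ^ 2 : ℝ) * ff σ ((j + 1) * v ^ 2) = (√(2 * Real.pi) : ℝ) * (v *
      ((ab v (j + 1) : ℂ) * exp ((j + 1 : ℕ) * (((σ * v ^ 2 : ℝ) : ℂ) * I)))) := by
  have h1 : √((j + 1) * v ^ 2) = √(j + 1) * v := by
    rw [Real.sqrt_mul (by positivity), Real.sqrt_sq hv.le]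
  have h2 : √(2 * Real.pi * ((j + 1 : ℕ) : ℝ)) = √(2 * Real.pi) * √(j + 1) := by
    rw [Real.sqrt_mul (by positivity)]; push_cast; rfl
  have h3 : ((√(j + 1) : ℝ) : ℂ) ≠ 0 := ofReal_ne_zero.2 (by positivity)
  have h4 : ((√(2 * Real.pi) : ℝ) : ℂ) ≠ 0 := ofReal_ne_zero.2 (by positivity)
  have h5 : (v : ℂ) ≠ 0 := ofReal_ne_zero.2 hv.ne'
  have h6 : exp (σ * (((j + 1) * v ^ 2 : ℝ) : ℂ) * I) =
      exp ((j + 1 : ℕ) * (((σ * v ^ 2 : ℝ) : ℂ) * I)) := by congr 1; push_cast; ring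
  rw [ff_eq σ (by positivity), exp_ps, h1, ab, h2, h6, Nat.cast_succ (R := ℝ) j]
  generalize √(2 * Real.pi) = a at *
  generalize √((j : ℝ) + 1) = b at *
  generalize om (((j : ℝ) + 1) * v ^ 2) = c
  generalize exp ((j + 1 : ℕ) * (((σ * v ^ 2 : ℝ) : ℂ) * I)) = e
  push_cast
  field_simp

theorem window : ∃ (b : ℝ) (Φ : ℝ → ℂ), 53 / 100 ≤ b ∧ b ≤ 1 ∧ ∀ v : ℝ, 0 < v → v ≤ 1 / 10 →
    ∀ σ : ℝ, 0 ≤ σ → σ ≤ 9 → ‖v * (b + TT v (σ * v ^ 2)) - Φ σ‖ ≤ 3 / 100 := by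
  have hp1 : 5 / 2 ≤ √(2 * Real.pi) := Real.le_sqrt_of_sq_le (by linarith [Real.pi_gt_d2])
  have hp2 : √(2 * Real.pi) ≤ 13 / 5 := Real.sqrt_le_iff.2 ⟨by norm_num, by
    linarith [Real.pi_lt_d2]⟩
  have hq1 : 7 / 10 ≤ √(1 / 2) := Real.le_sqrt_of_sq_le (by norm_num)
  have hq2 : √(1 / 2) ≤ 1 := Real.sqrt_le_iff.2 ⟨by norm_num, by norm_num⟩
  refine ⟨2 * √(1 / 2) / √(2 * Real.pi),
    fun σ => (∫ u in Set.Ioi (0 : ℝ), 2 * exp (ps σ (u ^ 2))) / (√(2 * Real.pi) : ℝ),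
    by rw [le_div_iff₀ (by positivity)]; linarith,
    by rw [div_le_one (by positivity)]; linarith, fun v hv hv1 σ h0 h9 => ?_⟩
  obtain ⟨r, hr⟩ : ∃ r, r = v * √(1 / 2) := ⟨_, rfl⟩
  have hr0 : 0 < r := by rw [hr]; positivity
  have hr2 : r ^ 2 = v ^ 2 / 2 := by rw [hr, mul_pow, Real.sq_sqrt (by norm_num)]; ring
  have hr1 : r ^ 2 ≤ 1 / 200 := by nlinarith
  have hh : 0 < v ^ 2 := by positivity
  have hint : IntegrableOn (fun u : ℝ => 2 * exp (ps σ (u ^ 2))) (Set.Ioi 0) := by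
    refine Integrable.integrableOn ?_
    refine ((integrable_exp_neg_mul_sq one_pos).const_mul (2 * Real.exp 6)).mono'
      (cont_int σ).aestronglyMeasurable (Eventually.of_forall fun u => ?_)
    rw [norm_mul, norm_exp_ps, Complex.norm_two, mul_assoc, ← Real.exp_add]
    have := om_le (sq_nonneg u)
    rw [show 6 + -1 * u ^ 2 = 6 - u ^ 2 by ring]
    linarith
  have hG : Tendsto (fun n : ℕ => GI σ ((n + 1) * v ^ 2 + v ^ 2 / 2)) atTop
      (𝓝 (∫ u in Set.Ioi (0 : ℝ), 2 * exp (ps σ (u ^ 2)))) :=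
    intervalIntegral_tendsto_integral_Ioi 0 hint (Real.tendsto_sqrt_atTop.comp
      (tendsto_atTop_add_const_right _ _ ((tendsto_atTop_add_const_right _ _
        tendsto_natCast_atTop_atTop).atTop_mul_const hh)))
  have hS : Summable fun N : ℕ => (ab v N : ℂ) * exp (N * (((σ * v ^ 2 : ℝ) : ℂ) * I)) := by
    refine Summable.of_norm ((summable_ab hv).congr fun N => ?_)
    rw [norm_mul, ← mul_assoc, ← ofReal_natCast, ← ofReal_mul, norm_exp_ofReal_mul_I, mul_one,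
      norm_real, Real.norm_of_nonneg (ab_nonneg v N)]
  have hT : Tendsto (fun n : ℕ => ∑ j ∈ Finset.range (n + 1),
      (v ^ 2 : ℝ) * ff σ ((j + 1) * v ^ 2)) atTop
      (𝓝 ((√(2 * Real.pi) : ℝ) * (v * TT v (σ * v ^ 2)))) := by
    have h1 := ((hS.hasSum.tendsto_sum_nat.comp (tendsto_add_atTop_nat 2)).const_mul
      (v : ℂ)).const_mul ((√(2 * Real.pi) : ℝ) : ℂ)
    refine h1.congr fun n => ?_
    simp only [Function.comp_apply, term_eq σ hv]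
    rw [Finset.sum_range_succ', ab_zero, ofReal_zero, zero_mul, add_zero, Finset.mul_sum,
      Finset.mul_sum]
  have hb : ‖2 * r + (√(2 * Real.pi) : ℝ) * (v * TT v (σ * v ^ 2)) -
      ∫ u in Set.Ioi (0 : ℝ), 2 * exp (ps σ (u ^ 2))‖ ≤ 3 / 40 := by
    refine le_of_tendsto' ((hT.const_add (2 * r : ℂ)).sub hG).norm fun n => ?_
    have h1 := cells h0 h9 hh n
    have h2 := first h0 h9 hr0.le hr1
    have h3 := total hr0 hr1
    have h4 : 0 ≤ EE √(n * v ^ 2 + v ^ 2 / 2) := by unfold EE; positivity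
    have h5 : 2 * r ^ 2 = v ^ 2 := by linarith
    rw [h5] at h3
    rw [hr2] at h2
    rw [show √(v ^ 2 / 2) = r by rw [← hr2, Real.sqrt_sq hr0.le]] at h1
    have h6 := mul_nonneg (by positivity : 0 ≤ (v ^ 2) ^ 2 / 24) h4
    refine le_trans (le_of_eq ?_) ((norm_add_le _ _).trans ((add_le_add h2 h1).trans (by linarith)))
    congr 1
    ring
  have h4 : ((√(2 * Real.pi) : ℝ) : ℂ) ≠ 0 := ofReal_ne_zero.2 (by positivity)
  have e : v * (((2 * √(1 / 2) / √(2 * Real.pi) : ℝ) : ℂ) + TT v (σ * v ^ 2)) -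
      (∫ u in Set.Ioi (0 : ℝ), 2 * exp (ps σ (u ^ 2))) / (√(2 * Real.pi) : ℝ) =
      (2 * r + (√(2 * Real.pi) : ℝ) * (v * TT v (σ * v ^ 2)) -
        ∫ u in Set.Ioi (0 : ℝ), 2 * exp (ps σ (u ^ 2))) / (√(2 * Real.pi) : ℝ) := by
    rw [hr]
    generalize √(2 * Real.pi) = a at *
    generalize √(1 / 2) = b at *
    push_cast
    field_simp
  rw [e, norm_div, norm_real, Real.norm_of_nonneg (Real.sqrt_nonneg _),
    div_le_iff₀ (by positivity)]
  linarith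

end Pool.Agent.MP_39ed1d_co.H73
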